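import Pool.Agent.Helper9_CG.Stmt

/-!
# CG, module COUNTC: the weighted number of connected sets which contain a given vertex
-/

set_option autoImplicit false

namespace Pool.Agent.CG.H61

open SimpleGraph Pool.Agent.LAG Pool.Agent.LLG Pool.Agent.CG

theorem countc (hClu : ClucStmt) : CountcStmt := by
  intro W _ _ Γ k c m D w hk hc hm hw hreg hsp hgam v 𝒰 h𝒰
  haveI : Fintype (Pk Γ c) := Fintype.ofFinite _
  have h1 : ∀ U ∈ 𝒰, Wt Γ k c w (kap k c m D w) (U : Set W) ≤
      av (fun ω : Pk Γ c × (Sym2 W → Fin k) =>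
        Set.indicator {ω : Pk Γ c × (Sym2 W → Fin k) |
          {z | (pg ω.1 ⊔ opn Γ ω.2 1).Reachable v z} = (U : Set W)} (fun _ => (1 : ℝ)) ω) := by
    intro U hU
    refine (hClu W Γ k c m D w hk hc hm hw hreg hsp hgam U (h𝒰 U hU).2).trans ?_
    unfold av
    apply div_le_div_of_nonneg_right _ (Nat.cast_nonneg _)
    apply Finset.sum_le_sum
    intro ω _
    refine Set.indicator_le_indicator_of_subset ?_ (fun _ => zero_le_one) ω
    intro ω' hω'
    exact hω' v (h𝒰 U hU).1
  refine (Finset.sum_le_sum h1).trans ?_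
  unfold av
  rw [← Finset.sum_div, Finset.sum_comm]
  apply div_le_one_of_le₀ _ (Nat.cast_nonneg _)
  have h2 : ∀ ω : Pk Γ c × (Sym2 W → Fin k), ∑ U ∈ 𝒰,
      Set.indicator {ω : Pk Γ c × (Sym2 W → Fin k) |
          {z | (pg ω.1 ⊔ opn Γ ω.2 1).Reachable v z} = (U : Set W)} (fun _ => (1 : ℝ)) ω ≤ 1 := by
    intro ω
    by_cases h : ∃ U ∈ 𝒰, {z | (pg ω.1 ⊔ opn Γ ω.2 1).Reachable v z} = (U : Set W)
    · obtain ⟨U, hU, hUe⟩ := h
      rw [Finset.sum_eq_single U]
      · rw [Set.indicator_of_mem]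
        exact hUe
      · intro U' _ hne
        rw [Set.indicator_of_notMem]
        intro hmem
        apply hne
        have h3 : {z | (pg ω.1 ⊔ opn Γ ω.2 1).Reachable v z} = (U' : Set W) := hmem
        rw [hUe] at h3
        exact (Finset.coe_injective h3).symm
      · intro h3
        exact absurd hU h3
    · rw [Finset.sum_eq_zero]
      · exact zero_le_one
      · intro U hU
        rw [Set.indicator_of_notMem]
        intro hmem
        exact h ⟨U, hU, hmem⟩
  calc _ ≤ ∑ _ω : Pk Γ c × (Sym2 W → Fin k), (1 : ℝ) := Finset.sum_le_sum fun ω _ => h2 ω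
    _ = _ := by simp

end Pool.Agent.CG.H61
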