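import Pool.Agent.Helper9_CG.Stmt

/-!
# CG, module EVD: the coordinates on which a violator depends
-/

set_option autoImplicit false

namespace Pool.Agent.CG.H61

open SimpleGraph Pool.Agent.LAG Pool.Agent.LLG Pool.Agent.CG

theorem evd : EvdStmt := by
  classical
  intro V G Ξ _ s b k j _ D ω ω' t A S _ hg hl hx hE
  have hB : ∀ x y, (x ∈ A ∨ (∃ y' ∈ S, D.O x y') ∨ y ∈ S ∨ ∃ x' ∈ A, D.O x' y) →
      (D.B ω t x y ↔ D.B ω' t x y) := by
    intro x y h
    constructor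
    · rintro ⟨h1, h2⟩
      exact ⟨h1, by rw [← hg x y h1 h]; exact h2⟩
    · rintro ⟨h1, h2⟩
      exact ⟨h1, by rw [hg x y h1 h]; exact h2⟩
  have hF : ∀ x y, y ∈ S → (D.F ω t x y ↔ D.F ω' t x y) := by
    intro x y hy
    have hb := hB x y (Or.inr (Or.inr (Or.inl hy)))
    constructor
    · rintro ⟨h1, ξ, h2⟩
      refine ⟨hb.1 h1, ξ, ?_⟩
      rw [← hx ξ ⟨ω.2.1 ξ, by rw [h2]; exact hy⟩]
      exact h2
    · rintro ⟨h1, ξ, h2⟩
      refine ⟨hb.2 h1, ξ, ?_⟩
      rw [hx ξ ⟨ω'.2.1 ξ, by rw [h2]; exact hy⟩]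
      exact h2
  obtain ⟨h1, h2, h3, h4, h5⟩ := hE
  refine ⟨?_, ?_, ?_, ?_, ?_⟩
  · intro x hxA
    have e : {y | y ∈ S ∧ D.B ω' t x y} = {y | y ∈ S ∧ D.B ω t x y} := by
      ext y
      exact and_congr_right fun _ => (hB x y (Or.inl hxA)).symm
    rw [e]
    exact h1 x hxA
  · intro x hxA hk
    have hne : ∃ y' ∈ S, D.O x y' := by
      by_contra hcon
      have : {y | y ∈ S ∧ D.O x y} = ∅ := by
        rw [Set.eq_empty_iff_forall_notMem]
        rintro y ⟨hy1, hy2⟩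
        exact hcon ⟨y, hy1, hy2⟩
      rw [this, Set.ncard_empty] at hk
      omega
    have e : {y | y ∉ S ∧ D.B ω' t x y} = {y | y ∉ S ∧ D.B ω t x y} := by
      ext y
      exact and_congr_right fun _ => (hB x y (Or.inr (Or.inl hne))).symm
    rw [e]
    exact h2 x hxA hk
  · intro y hyS
    have e : {x | x ∈ A ∧ D.B ω' t x y} = {x | x ∈ A ∧ D.B ω t x y} := by
      ext x
      exact and_congr_right fun _ => (hB x y (Or.inr (Or.inr (Or.inl hyS)))).symm
    rw [e]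
    exact h3 y hyS
  · intro y hyS hk
    have hne : ∃ x' ∈ A, D.O x' y := by
      by_contra hcon
      have : {x | x ∈ A ∧ D.O x y} = ∅ := by
        rw [Set.eq_empty_iff_forall_notMem]
        rintro x ⟨hx1, hx2⟩
        exact hcon ⟨x, hx1, hx2⟩
      rw [this, Set.ncard_empty] at hk
      omega
    have e : {x | x ∉ A ∧ D.B ω' t x y} = {x | x ∉ A ∧ D.B ω t x y} := by
      ext x
      exact and_congr_right fun _ => (hB x y (Or.inr (Or.inr (Or.inr hne)))).symm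
    rw [e]
    exact h4 y hyS hk
  · have e1 : eb (D.B ω' t) A Sᶜ = eb (D.B ω t) A Sᶜ := by
      unfold eb
      congr 1
      ext p
      constructor
      · rintro ⟨a1, a2, a3⟩
        exact ⟨a1, a2, (hB _ _ (Or.inl a1)).2 a3⟩
      · rintro ⟨a1, a2, a3⟩
        exact ⟨a1, a2, (hB _ _ (Or.inl a1)).1 a3⟩
    have e2 : eb (D.F ω' t) Aᶜ S = eb (D.F ω t) Aᶜ S := by
      unfold eb
      congr 1
      ext p
      constructor
      · rintro ⟨a1, a2, a3⟩
        exact ⟨a1, a2, (hF _ _ a2).2 a3⟩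
      · rintro ⟨a1, a2, a3⟩
        exact ⟨a1, a2, (hF _ _ a2).1 a3⟩
    have e3 : A ∩ D.Z ω' t = A ∩ D.Z ω t := by
      ext v
      constructor
      · rintro ⟨a1, a2, a3⟩
        exact ⟨a1, a2, by rw [hl v a1]; exact a3⟩
      · rintro ⟨a1, a2, a3⟩
        exact ⟨a1, a2, by rw [← hl v a1]; exact a3⟩
    rw [e1, e2, e3]
    exact h5

end Pool.Agent.CG.H61
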