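import Pool.Agent.Helper9_CG.Stmt
import Pool.Agent.Helper33_LAG.Pet

/-!
# CG, module PETC: a graph of maximum degree `4 T` is a union of `T` graphs of maximum degree four
-/

set_option autoImplicit false

namespace Pool.Agent.CG.H61

open SimpleGraph Pool.Agent.LAG Pool.Agent.LLG Pool.Agent.CG

/-- The edges whose colour is `2 t` or `2 t + 1`. -/
def HT {V : Type} (G : SimpleGraph V) (c : Sym2 V → ℕ) (t : ℕ) : SimpleGraph V where
  Adj a b := G.Adj a b ∧ c s(a, b) / 2 = t
  symm := ⟨fun _ _ h => ⟨h.1.symm, by rw [Sym2.eq_swap]; exact h.2⟩⟩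
  loopless := ⟨fun _ h => h.1.ne rfl⟩

theorem petc : PetcStmt := by
  classical
  intro V _ G T hT
  obtain ⟨c, hc1, hc2⟩ := Pool.Agent.LAG.pet V G (2 * T) (fun v => by have := hT v; omega)
  refine ⟨fun t => HT G c t.val, fun t a b h => h.1, ?_, ?_, ?_⟩
  · intro t t' htt
    rw [disjoint_iff, eq_bot_iff]
    intro a b h
    exact htt (Fin.ext (h.1.2.symm.trans h.2.2))
  · ext a b
    rw [SimpleGraph.iSup_adj]
    constructor
    · rintro ⟨t, h⟩
      exact h.1
    · intro h
      have h1 := hc1 s(a, b) h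
      exact ⟨⟨c s(a, b) / 2, by omega⟩, h, rfl⟩
  · intro t v
    have key : ∀ i : ℕ, {w | G.Adj v w ∧ c s(v, w) = i}.ncard ≤ 2 := by
      intro i
      refine le_trans (Set.ncard_le_ncard_of_injOn (fun w => s(v, w)) ?_ ?_ (Set.toFinite _))
        (hc2 v i)
      · intro w hw
        exact ⟨hw.1, Sym2.mem_mk_left v w, hw.2⟩
      · intro w _ w' _ h
        exact Sym2.congr_right.1 h
    have hsub : (HT G c t.val).neighborSet v ⊆ {w | G.Adj v w ∧ c s(v, w) = 2 * t.val} ∪
        {w | G.Adj v w ∧ c s(v, w) = 2 * t.val + 1} := by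
      intro w hw
      have h1 : G.Adj v w := hw.1
      have h2 : c s(v, w) / 2 = t.val := hw.2
      have h3 : c s(v, w) = 2 * t.val ∨ c s(v, w) = 2 * t.val + 1 := by omega
      rcases h3 with h3 | h3
      · exact Or.inl ⟨h1, h3⟩
      · exact Or.inr ⟨h1, h3⟩
    refine le_trans (Set.ncard_le_ncard hsub (Set.toFinite _)) ?_
    refine le_trans (Set.ncard_union_le _ _) ?_
    have h1 := key (2 * t.val)
    have h2 := key (2 * t.val + 1)
    omega

end Pool.Agent.CG.H61
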